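import Pool.Agent.H85.FK.Deg

/-!
The subalgebra of the Fomin-Kirillov algebra attached to a graph containing a complete bipartite
graph on at least six vertices is infinite-dimensional. In particular a vertex of degree at least
five is excluded, and the Fomin-Kirillov algebra on `n` letters is infinite-dimensional for every
`n ≥ 6`.
-/

namespace Pool.Agent.Results.MP_d8ccee_al.BipartiteSix

open Pool.Agent.H85.FK

theorem result (n : ℕ) (G : SimpleGraph (Fin n)) (s t : Finset (Fin n)) (hst : Disjoint s t)
    (hs : s.Nonempty) (ht : t.Nonempty) (hc : 6 ≤ s.card + t.card)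
    (h : ∀ a ∈ s, ∀ b ∈ t, G.Adj a b) : ¬ FiniteDimensional ℚ (FKSub G) :=
  bip_infinite G s t hst hs ht hc h

end Pool.Agent.Results.MP_d8ccee_al.BipartiteSix
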