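import Pool.Agent.H85.FK.Deg

/-!
Edges inside a module of a graph are irrelevant for the finite-dimensionality of the subalgebra
of the Fomin-Kirillov algebra attached to the graph.
-/

namespace Pool.Agent.Results.MP_d8ccee_al.Modules

open Pool.Agent.H85.FK

theorem result (n : ℕ) (G H : SimpleGraph (Fin n)) (M : Finset (Fin n)) (v : Fin n)
    (hv : v ∉ M) (hvM : ∀ a ∈ M, G.Adj v a)
    (hM : ∀ a ∈ M, ∀ b ∈ M, ∀ c, c ∉ M → G.Adj a c → G.Adj b c)
    (hGH : ∀ a b, (a ∉ M ∨ b ∉ M) → (H.Adj a b ↔ G.Adj a b)) :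
    FiniteDimensional ℚ (FKSub G) ↔ FiniteDimensional ℚ (FKSub H) := by
  constructor
  · exact fd_module G H M v hvM hM (fun a b h h' => (hGH a b h).1 h')
  · refine fd_module H G M v ?_ ?_ (fun a b h h' => (hGH a b h).2 h')
    · intro a ha
      exact (hGH v a (Or.inl hv)).2 (hvM a ha)
    · intro a ha b hb c hc hac
      exact (hGH b c (Or.inr hc)).2 (hM a ha b hb c hc ((hGH a c (Or.inr hc)).1 hac))

end Pool.Agent.Results.MP_d8ccee_al.Modules
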