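import Pool.Agent.Lib.H40FK.Six

/-!
The subalgebra of the Fomin-Kirillov algebra attached to a graph containing a certain graph with
six vertices and seven edges (the complete graph on four vertices without one edge, with a pendant
edge at each of its two vertices of degree three) is infinite-dimensional.
-/

namespace Pool.Agent.Results.MP_d8ccee_al.SevenEdges

open Pool.Agent.H85.FK

theorem result (n : ℕ) (G : SimpleGraph (Fin n)) (v : Fin 6 → Fin n)
    (hv : Function.Injective v)
    (h : G.Adj (v 0) (v 1) ∧ G.Adj (v 0) (v 4) ∧ G.Adj (v 0) (v 5) ∧ G.Adj (v 1) (v 4) ∧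
      G.Adj (v 1) (v 5) ∧ G.Adj (v 0) (v 2) ∧ G.Adj (v 1) (v 3)) :
    ¬ FiniteDimensional ℚ (FKSub G) :=
  Pool.Agent.Lib.H40FK.main6 G v hv h.1 h.2.2.2.2.2.1 h.2.2.2.2.2.2 h.2.1 h.2.2.2.2.1 h.2.2.1
    h.2.2.2.1

end Pool.Agent.Results.MP_d8ccee_al.SevenEdges
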