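import Pool.Agent.Lib.H40FK.Eight

/-!
The subalgebra of the Fomin-Kirillov algebra attached to a graph containing a cycle of length
eight together with two of its long diagonals, at distance two from each other, is
infinite-dimensional.
-/

namespace Pool.Agent.Results.MP_d8ccee_al.TenEdges

open Pool.Agent.H85.FK

theorem result (n : ℕ) (G : SimpleGraph (Fin n)) (φ : Fin 8 → Fin n)
    (hφ : Function.Injective φ)
    (h : ∀ i : Fin 8, G.Adj (φ i) (φ (i + 1)))
    (h04 : G.Adj (φ 0) (φ 4)) (h26 : G.Adj (φ 2) (φ 6)) :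
    ¬ FiniteDimensional ℚ (FKSub G) :=
  Pool.Agent.Lib.H40FK.main8 G φ hφ h h04 h26

end Pool.Agent.Results.MP_d8ccee_al.TenEdges
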